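import Pool.Agent.Run7.h747.ZB.Defs
import Pool.Agent.Run7.h923.ZetaTrace

/-!
# Piece MAT1
-/

set_option autoImplicit false
set_option linter.unusedSectionVars false

namespace Run7.h431.ZB

open Matrix Run7.h923.ZT Run7.h747.ZB

section
variable {I : Type} [Fintype I] [DecidableEq I]

theorem sgn_star {σ : I → ℂ} (hσ : ∀ x, σ x = 1 ∨ σ x = -1) : ∀ x, star (σ x) = σ x := by
  intro x
  rcases hσ x with h | h <;> rw [h] <;> simp

theorem sgn_norm {σ : I → ℂ} (hσ : ∀ x, σ x = 1 ∨ σ x = -1) : ∀ x, ‖σ x‖ = 1 := by
  intro x
  rcases hσ x with h | h <;> rw [h] <;> simp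

theorem trace_pow_fro {S : Matrix I I ℂ} (hS : Sᴴ = S) (k : ℕ) : (S ^ (2 * k)).trace = (fro (S ^ k) : ℂ) := by
  rw [← trace_conj_mul, Matrix.conjTranspose_pow, hS, ← pow_add, two_mul]

theorem step {σ : I → ℂ} (hσ : ∀ x, σ x = 1 ∨ σ x = -1) {S : Matrix I I ℂ} (hS : Sᴴ = S) {k : ℕ} (hk : 1 ≤ k)
    (b c : Bool) (l m : List Bool) (hl : l.length = k - 1) (hm : m.length = k - 1) :
    (W σ S (List.replicate (2 * k) false)).trace.re - (W σ S (Run7.h923.ZT.refl l)).trace.re ≤
      2 * ((W σ S (List.replicate (2 * k) false)).trace.re - (W σ S ((b :: l) ++ (c :: m))).trace.re) := by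
  have hs := sgn_star hσ
  have h1 := sgn_norm hσ
  have hM : ‖(W σ S (List.replicate (2 * k) false)).trace‖ = (W σ S (List.replicate (2 * k) false)).trace.re := by
    rw [W_replicate_false, trace_pow_fro hS, Complex.norm_real, Complex.ofReal_re,
      Real.norm_of_nonneg (fro_nonneg _)]
  have hr : ∀ l : List Bool, ‖(W σ S (Run7.h923.ZT.refl l)).trace‖ = (W σ S (Run7.h923.ZT.refl l)).trace.re := by
    intro l
    rw [trace_refl σ hs S hS, Complex.norm_real, Complex.ofReal_re, Real.norm_of_nonneg (fro_nonneg _)]
  have hlen : ((b :: l) ++ (c :: m)).length = 2 * k := by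
    simp only [List.length_append, List.length_cons]
    omega
  have hlen2 : (Run7.h923.ZT.refl m).length = 2 * k := by
    unfold Run7.h923.ZT.refl
    simp only [List.length_cons, List.length_append, List.length_reverse]
    omega
  have e1 := word_sq_le σ hs h1 S hS b c l m
  have e2 := word_le σ hs h1 S hS k hk _ hlen2
  have e3 := word_le σ hs h1 S hS k hk _ hlen
  have e4 : (W σ S ((b :: l) ++ (c :: m))).trace.re ≤ ‖(W σ S ((b :: l) ++ (c :: m))).trace‖ :=
    Complex.re_le_norm _
  have e5 : 0 ≤ ‖(W σ S (Run7.h923.ZT.refl l)).trace‖ := norm_nonneg _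
  have e6 : 0 ≤ ‖(W σ S (Run7.h923.ZT.refl m)).trace‖ := norm_nonneg _
  rw [hr l] at e1 e5
  rw [hM] at e2 e3
  generalize (W σ S (List.replicate (2 * k) false)).trace.re = M at *
  generalize (W σ S (Run7.h923.ZT.refl l)).trace.re = x at *
  generalize ‖(W σ S (Run7.h923.ZT.refl m)).trace‖ = y at *
  generalize (W σ S ((b :: l) ++ (c :: m))).trace.re = a at *
  generalize ‖(W σ S ((b :: l) ++ (c :: m))).trace‖ = n at *
  by_contra hcon
  push Not at hcon
  have h7 : x < 2 * a - M := by linarith
  have hMpos : 0 ≤ M := e6.trans e2
  have h8 : 0 < 2 * a - M := lt_of_le_of_lt e5 h7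
  have h9 : 0 < a := by linarith
  have hMp : 0 < M := by
    rcases eq_or_lt_of_le hMpos with h | h
    · linarith
    · exact h
  have h10 : a ^ 2 ≤ n ^ 2 := by nlinarith
  have h11 : a ^ 2 ≤ x * M := by nlinarith
  nlinarith [sq_nonneg (a - M)]

theorem t_MAT1 : S_MAT1 := by
  intro I _ _ σ S k hk hσ hS
  have hs := sgn_star hσ
  have key : ∀ r, r ≤ k - 2 →
      (W σ S (List.replicate (2 * k) false)).trace.re -
        (W σ S (Run7.h923.ZT.refl (List.replicate r false ++ List.replicate (k - 1 - r) true))).trace.re ≤
      2 ^ (r + 1) * ((W σ S (List.replicate (2 * k) false)).trace.re -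
        (W σ S (List.replicate (2 * k) true)).trace.re) := by
    intro r
    induction r with
    | zero =>
      intro _
      have := step hσ hS (by omega : 1 ≤ k) true true (List.replicate (k - 1) true) (List.replicate (k - 1) true)
        (by simp) (by simp)
      have e : (true :: List.replicate (k - 1) true) ++ (true :: List.replicate (k - 1) true) =
          List.replicate (2 * k) true := by
        rw [← List.replicate_succ, List.replicate_append_replicate]
        congr 1
        omega
      rw [e] at this
      simpa using this
    | succ r ih =>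
      intro hr
      have ih' := ih (by omega)
      set P : List Bool := false :: (List.replicate (k - 1 - r) true ++ List.replicate r false) with hP
      have hPne : P ≠ [] := by rw [hP]; exact List.cons_ne_nil _ _
      have hPlen : P.length = k := by
        rw [hP]
        simp only [List.length_cons, List.length_append, List.length_replicate]
        omega
      set A := P.dropLast with hA
      set b := P.getLast hPne with hb
      have hAb : A ++ [b] = P := List.dropLast_append_getLast hPne
      have hAlen : A.length = k - 1 := by rw [hA, List.length_dropLast, hPlen]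
      set l' : List Bool := List.replicate (r + 1) false ++ List.replicate (k - 1 - (r + 1)) true with hl'
      have hl'len : l'.length = k - 1 := by
        rw [hl']
        simp only [List.length_append, List.length_replicate]
        omega
      have hV : Run7.h923.ZT.refl (List.replicate r false ++ List.replicate (k - 1 - r) true) = A ++ ((b :: l') ++ [true]) := by
        have h1 : A ++ ((b :: l') ++ [true]) = P ++ (l' ++ [true]) := by
          rw [← hAb]
          simp
        rw [h1, hP, hl']
        unfold Run7.h923.ZT.refl
        have h2 : k - 1 - r = (k - 1 - (r + 1)) + 1 := by omega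
        have h3 : List.replicate (k - 1 - r) true = List.replicate (k - 1 - (r + 1)) true ++ [true] := by
          rw [h2, List.replicate_succ']
        rw [List.reverse_append, List.reverse_replicate, List.reverse_replicate, List.cons_append]
        congr 1
        rw [List.append_assoc, List.append_assoc, List.append_assoc]
        congr 2
        rw [← h3, List.replicate_succ, List.cons_append]
      have htr : (W σ S (Run7.h923.ZT.refl (List.replicate r false ++ List.replicate (k - 1 - r) true))).trace =
          (W σ S ((b :: l') ++ (true :: A))).trace := by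
        rw [hV, trace_rotate]
        congr 2
        simp
      have := step hσ hS (by omega : 1 ≤ k) b true l' A hl'len hAlen
      rw [← htr] at this
      refine this.trans ?_
      rw [pow_succ 2 (r + 1)]
      linarith
  have h1 := key (k - 2) le_rfl
  have hkk : k - 2 + 1 = k - 1 := by omega
  rw [hkk] at h1
  have e1 : (W σ S (List.replicate (2 * k) false)).trace = (S ^ (2 * k)).trace := by rw [W_replicate_false]
  have e2 : (W σ S (List.replicate (2 * k) true)).trace = ((diagonal σ * S) ^ (2 * k)).trace := by
    rw [W_replicate_true]
  have e3 : (W σ S (Run7.h923.ZT.refl (List.replicate (k - 2) false ++ List.replicate (k - 1 - (k - 2)) true))).trace =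
      (S * S * (diagonal σ * S ^ (2 * k - 2) * diagonal σ)).trace := by
    have h2 : k - 1 - (k - 2) = 1 := by omega
    rw [h2]
    unfold Run7.h923.ZT.refl
    rw [List.reverse_append, List.reverse_replicate, List.reverse_replicate, W_cons, W_append, W_append, W_cons,
      W_append, W_replicate_false, Jb_false, one_mul]
    have h3 : W σ S (List.replicate 1 true) = diagonal σ * S := by
      rw [W_replicate_true, pow_one]
    rw [h3]
    have h4 : S ^ (2 * k - 2) = S * (S ^ (k - 2) * (S * S ^ (k - 2))) := by
      rw [← pow_succ' S (k - 2), ← pow_add, ← pow_succ']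
      congr 1
      omega
    rw [h4, Matrix.trace_mul_comm (S * S)]
    have h5 : S * (diagonal σ * S * S ^ (k - 2) * (S * (S ^ (k - 2) * (diagonal σ * S)))) =
        S * (diagonal σ * (S * (S ^ (k - 2) * (S * S ^ (k - 2)))) * diagonal σ * S) := by
      simp only [mul_assoc]
    rw [h5, Matrix.trace_mul_comm]
    simp only [mul_assoc]
  rw [e1, e2, e3] at h1
  rw [Complex.sub_re]
  exact h1

end

end Run7.h431.ZB
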