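import Pool.Agent.Run7.h431.ZB.MAT1

/-!
# Piece MAT2
-/

set_option autoImplicit false
set_option linter.unusedSectionVars false

namespace Run7.h431.ZB

open Matrix Run7.h923.ZT Run7.h747.ZB

section
variable {I : Type} [Fintype I] [DecidableEq I]

theorem exists_diag (D : Matrix I I ℂ) (hD : Dᴴ = D) : ∃ (U : Matrix I I ℂ) (d : I → ℝ),
    Uᴴ * U = 1 ∧ U * Uᴴ = 1 ∧ D = U * diagonal (fun i => (d i : ℂ)) * Uᴴ := by
  have h : D.IsHermitian := hD
  refine ⟨(h.eigenvectorUnitary : Matrix I I ℂ), h.eigenvalues, ?_, ?_, ?_⟩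
  · exact Unitary.coe_star_mul_self h.eigenvectorUnitary
  · exact Unitary.coe_mul_star_self h.eigenvectorUnitary
  · have := h.spectral_theorem
    rw [Unitary.conjStarAlgAut_apply] at this
    exact this

/-- the squares of the norms of the columns -/
noncomputable def cs (P : Matrix I I ℂ) (i : I) : ℝ := ∑ x, ‖P x i‖ ^ 2

theorem cs_nonneg (P : Matrix I I ℂ) (i : I) : 0 ≤ cs P i := Finset.sum_nonneg fun _ _ => by positivity

theorem diag_cs (P : Matrix I I ℂ) (i : I) : (Pᴴ * P) i i = (cs P i : ℂ) := by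
  unfold cs
  rw [Matrix.mul_apply]
  push_cast
  refine Finset.sum_congr rfl fun x _ => ?_
  rw [Matrix.conjTranspose_apply, Complex.star_def, ← Complex.normSq_eq_conj_mul_self, Complex.normSq_eq_norm_sq]
  push_cast
  rfl

theorem diag_sq_le (P Q : Matrix I I ℂ) (i : I) : ‖(Pᴴ * Q) i i‖ ^ 2 ≤ cs P i * cs Q i := by
  have h1 : ‖(Pᴴ * Q) i i‖ ≤ ∑ x, ‖P x i‖ * ‖Q x i‖ := by
    rw [Matrix.mul_apply]
    refine (norm_sum_le _ _).trans (Finset.sum_le_sum fun x _ => ?_)
    rw [norm_mul, Matrix.conjTranspose_apply, norm_star]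
  have h2 := Finset.sum_mul_sq_le_sq_mul_sq (Finset.univ : Finset I) (fun x => ‖P x i‖) (fun x => ‖Q x i‖)
  have h5 : (0 : ℝ) ≤ ‖(Pᴴ * Q) i i‖ := norm_nonneg _
  unfold cs
  nlinarith

/-- the moments are log-convex -/
theorem cs_conv {S U : Matrix I I ℂ} (hS : Sᴴ = S) (j : ℕ) (i : I) :
    cs (S ^ (j + 1) * U) i ^ 2 ≤ cs (S ^ j * U) i * cs (S ^ (j + 2) * U) i := by
  have h1 : (S ^ (j + 1) * U)ᴴ * (S ^ (j + 1) * U) = (S ^ j * U)ᴴ * (S ^ (j + 2) * U) := by
    rw [Matrix.conjTranspose_mul, Matrix.conjTranspose_mul, Matrix.conjTranspose_pow, Matrix.conjTranspose_pow, hS]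
    rw [mul_assoc, mul_assoc, ← mul_assoc (S ^ (j + 1)), ← mul_assoc (S ^ j), ← pow_add, ← pow_add]
    congr 3
    omega
  have h2 := diag_cs (S ^ (j + 1) * U) i
  have h3 := diag_sq_le (S ^ j * U) (S ^ (j + 2) * U) i
  rw [← h1, h2, Complex.norm_real, Real.norm_of_nonneg (cs_nonneg _ _)] at h3
  exact h3

theorem cs_step {S U : Matrix I I ℂ} (hS : Sᴴ = S) (hU : Uᴴ * U = 1) (i : I) (j : ℕ) :
    cs (S * U) i * cs (S ^ j * U) i ≤ cs (S ^ (j + 1) * U) i := by
  have h0 : cs U i = 1 := by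
    have h := diag_cs U i
    rw [hU, Matrix.one_apply_eq] at h
    exact_mod_cast h.symm
  induction j with
  | zero =>
    rw [pow_zero, one_mul, zero_add, pow_one, h0, mul_one]
  | succ j ih =>
    have h1 := cs_conv (U := U) hS j i
    have a1 := cs_nonneg (S * U) i
    have a2 := cs_nonneg (S ^ j * U) i
    have a3 := cs_nonneg (S ^ (j + 1) * U) i
    have a4 := cs_nonneg (S ^ (j + 2) * U) i
    have e : j + 1 + 1 = j + 2 := rfl
    rw [e]
    generalize cs (S * U) i = a at *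
    generalize cs (S ^ j * U) i = b at *
    generalize cs (S ^ (j + 1) * U) i = c at *
    generalize cs (S ^ (j + 2) * U) i = d at *
    rcases eq_or_lt_of_le a2 with h | h
    · have : c ^ 2 ≤ 0 := by rw [← h, zero_mul] at h1; exact h1
      have hc : c = 0 := by nlinarith
      rw [hc, mul_zero]
      exact a4
    · by_contra hcon
      push Not at hcon
      nlinarith [mul_le_mul_of_nonneg_left hcon.le a2, mul_pos h h]

theorem cs_pow {S U : Matrix I I ℂ} (hS : Sᴴ = S) (hU : Uᴴ * U = 1) (i : I) (m : ℕ) :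
    cs (S * U) i ^ m ≤ cs (S ^ m * U) i := by
  induction m with
  | zero =>
    have h := diag_cs U i
    rw [hU, Matrix.one_apply_eq] at h
    have h0 : cs U i = 1 := by exact_mod_cast h.symm
    rw [pow_zero, pow_zero, one_mul, h0]
  | succ m ih =>
    have h1 := cs_step hS hU i m
    have a1 := cs_nonneg (S * U) i
    rw [pow_succ']
    exact (mul_le_mul_of_nonneg_left ih a1).trans h1

theorem add_pow_le' (a b : ℝ) (ha : 0 ≤ a) (hb : 0 ≤ b) (m : ℕ) :
    2 * (a + b) ^ m ≤ 2 ^ m * (a ^ m + b ^ m) := by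
  induction m with
  | zero => norm_num
  | succ m ih =>
    have h1 : a ^ m * b + b ^ m * a ≤ a ^ (m + 1) + b ^ (m + 1) := by
      have h2 : 0 ≤ (a ^ m - b ^ m) * (a - b) := by
        rcases le_total a b with h | h
        · have := pow_le_pow_left₀ ha h m
          nlinarith
        · have := pow_le_pow_left₀ hb h m
          nlinarith
      rw [pow_succ, pow_succ]
      nlinarith
    have h3 : 0 ≤ a + b := add_nonneg ha hb
    calc 2 * (a + b) ^ (m + 1) = (2 * (a + b) ^ m) * (a + b) := by ring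
      _ ≤ (2 ^ m * (a ^ m + b ^ m)) * (a + b) := mul_le_mul_of_nonneg_right ih h3
      _ = 2 ^ m * (a ^ (m + 1) + b ^ (m + 1) + (a ^ m * b + b ^ m * a)) := by ring
      _ ≤ 2 ^ m * (a ^ (m + 1) + b ^ (m + 1) + (a ^ (m + 1) + b ^ (m + 1))) := by
          have : (0 : ℝ) ≤ 2 ^ m := by positivity
          nlinarith
      _ = 2 ^ (m + 1) * (a ^ (m + 1) + b ^ (m + 1)) := by ring

theorem diag_sq {U : Matrix I I ℂ} {d : I → ℝ} (hU : Uᴴ * U = 1) :
    (U * diagonal (fun i => (d i : ℂ)) * Uᴴ) * (U * diagonal (fun i => (d i : ℂ)) * Uᴴ) =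
      U * diagonal (fun i => ((d i ^ 2 : ℝ) : ℂ)) * Uᴴ := by
  have h1 : (U * diagonal (fun i => (d i : ℂ)) * Uᴴ) * (U * diagonal (fun i => (d i : ℂ)) * Uᴴ) =
      U * diagonal (fun i => (d i : ℂ)) * (Uᴴ * U) * diagonal (fun i => (d i : ℂ)) * Uᴴ := by
    simp only [mul_assoc]
  rw [h1, hU, mul_one, mul_assoc U, diagonal_mul_diagonal]
  congr 3
  funext i
  push_cast
  ring

theorem trace_diag {R U : Matrix I I ℂ} (hR : Rᴴ = R) (d : I → ℝ) (m : ℕ) :
    (R ^ (2 * m) * (U * diagonal (fun i => ((d i ^ 2 : ℝ) : ℂ)) * Uᴴ)).trace =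
      ((∑ i, cs (R ^ m * U) i * d i ^ 2 : ℝ) : ℂ) := by
  have h1 : (R ^ (2 * m) * (U * diagonal (fun i => ((d i ^ 2 : ℝ) : ℂ)) * Uᴴ)).trace =
      (((R ^ m * U)ᴴ * (R ^ m * U)) * diagonal (fun i => ((d i ^ 2 : ℝ) : ℂ))).trace := by
    rw [← mul_assoc, Matrix.trace_mul_comm, Matrix.conjTranspose_mul, Matrix.conjTranspose_pow, hR, two_mul, pow_add]
    simp only [mul_assoc]
  rw [h1]
  simp only [Matrix.trace, Matrix.diag_apply, Matrix.mul_diagonal, diag_cs]
  push_cast
  rfl

theorem rows {D U : Matrix I I ℂ} (hD : Dᴴ = D) {d : I → ℝ} (hU : Uᴴ * U = 1)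
    (h : D = U * diagonal (fun i => (d i : ℂ)) * Uᴴ) (x : I) :
    ∑ y, ‖D x y‖ ^ 2 = ∑ i, ‖U x i‖ ^ 2 * d i ^ 2 := by
  have h1 : (D * D) x x = ((∑ y, ‖D x y‖ ^ 2 : ℝ) : ℂ) := by
    rw [Matrix.mul_apply]
    push_cast
    refine Finset.sum_congr rfl fun y _ => ?_
    have h2 : D y x = star (D x y) := by
      conv_lhs => rw [← hD]
      rfl
    rw [h2, Complex.star_def, Complex.mul_conj, Complex.normSq_eq_norm_sq]
    push_cast
    rfl
  have h2 : (D * D) x x = ((∑ i, ‖U x i‖ ^ 2 * d i ^ 2 : ℝ) : ℂ) := by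
    have h3 : D * D = U * diagonal (fun i => ((d i ^ 2 : ℝ) : ℂ)) * Uᴴ := by rw [h, diag_sq hU]
    rw [h3, Matrix.mul_apply]
    push_cast
    refine Finset.sum_congr rfl fun i _ => ?_
    rw [Matrix.mul_diagonal, Matrix.conjTranspose_apply, Complex.star_def]
    have : U x i * ((d i : ℂ) ^ 2) * (starRingEnd ℂ) (U x i) = (U x i * (starRingEnd ℂ) (U x i)) * (d i : ℂ) ^ 2 := by
      ring
    rw [this, Complex.mul_conj, Complex.normSq_eq_norm_sq]
    push_cast
    rfl
  rw [h1] at h2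
  exact_mod_cast h2

theorem jensen {D U : Matrix I I ℂ} (hD : Dᴴ = D) {d : I → ℝ} (hU : Uᴴ * U = 1) (hU' : U * Uᴴ = 1)
    (h : D = U * diagonal (fun i => (d i : ℂ)) * Uᴴ) {k : ℕ} (hk : 2 ≤ k) :
    ∑ x, (∑ y, ‖D x y‖ ^ 2) ^ ((k : ℝ) / 2) ≤ ∑ i, |d i| ^ k := by
  have hp : (1 : ℝ) ≤ (k : ℝ) / 2 := by
    have : (2 : ℝ) ≤ k := by exact_mod_cast hk
    linarith
  have hw : ∀ x, ∑ i, ‖U x i‖ ^ 2 = 1 := by
    intro x
    have h1 : (U * Uᴴ) x x = ((∑ i, ‖U x i‖ ^ 2 : ℝ) : ℂ) := by
      rw [Matrix.mul_apply]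
      push_cast
      refine Finset.sum_congr rfl fun y _ => ?_
      rw [Matrix.conjTranspose_apply, Complex.star_def, Complex.mul_conj, Complex.normSq_eq_norm_sq]
      push_cast
      rfl
    rw [hU', Matrix.one_apply_eq] at h1
    exact_mod_cast h1.symm
  have hc : ∀ i, ∑ x, ‖U x i‖ ^ 2 = 1 := by
    intro i
    have h1 := diag_cs U i
    rw [hU, Matrix.one_apply_eq] at h1
    have h0 : cs U i = 1 := by exact_mod_cast h1.symm
    exact h0
  have hpow : ∀ i, (d i ^ 2) ^ ((k : ℝ) / 2) = |d i| ^ k := by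
    intro i
    rw [← sq_abs, ← Real.rpow_natCast (|d i|) 2, ← Real.rpow_mul (abs_nonneg _)]
    have : ((2 : ℕ) : ℝ) * ((k : ℝ) / 2) = (k : ℝ) := by
      push_cast
      ring
    rw [this, Real.rpow_natCast]
  calc ∑ x, (∑ y, ‖D x y‖ ^ 2) ^ ((k : ℝ) / 2) ≤ ∑ x, ∑ i, ‖U x i‖ ^ 2 * |d i| ^ k := by
        refine Finset.sum_le_sum fun x _ => ?_
        rw [rows hD hU h x]
        have := Real.rpow_arith_mean_le_arith_mean_rpow (Finset.univ : Finset I) (fun i => ‖U x i‖ ^ 2)
          (fun i => d i ^ 2) (fun i _ => by positivity) (hw x) (fun i _ => by positivity) hp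
        refine this.trans (le_of_eq ?_)
        refine Finset.sum_congr rfl fun i _ => ?_
        rw [hpow]
    _ = ∑ i, |d i| ^ k := by
        rw [Finset.sum_comm]
        refine Finset.sum_congr rfl fun i _ => ?_
        rw [← Finset.sum_mul, hc, one_mul]

theorem sgn_mul {σ : I → ℂ} (hσ : ∀ x, σ x = 1 ∨ σ x = -1) :
    (diagonal σ : Matrix I I ℂ) * diagonal σ = 1 := by
  rw [diagonal_mul_diagonal, ← diagonal_one]
  congr 1
  funext x
  rcases hσ x with h | h <;> rw [h] <;> norm_num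

theorem conj_pow {J S : Matrix I I ℂ} (hJ : J * J = 1) (n : ℕ) : (J * S * J) ^ n = J * S ^ n * J := by
  induction n with
  | zero => rw [pow_zero, pow_zero, mul_one, hJ]
  | succ n ih =>
    rw [pow_succ, ih, pow_succ]
    have : J * S ^ n * J * (J * S * J) = J * S ^ n * (J * J) * S * J := by simp only [mul_assoc]
    rw [this, hJ, mul_one]
    simp only [mul_assoc]

theorem t_MAT2 : S_MAT2 := by
  intro I _ _ σ S k hk hσ hS
  obtain ⟨m, rfl⟩ : ∃ m, k = m + 2 := ⟨k - 2, by omega⟩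
  have hs := sgn_star hσ
  have hn := sgn_norm hσ
  set J : Matrix I I ℂ := diagonal σ with hJdef
  have hJ : J * J = 1 := sgn_mul hσ
  have hJh : Jᴴ = J := Jb_herm σ hs true
  set D : Matrix I I ℂ := S * S - J * (S * S) * J with hDdef
  have hD : Dᴴ = D := by
    rw [hDdef, Matrix.conjTranspose_sub, Matrix.conjTranspose_mul, Matrix.conjTranspose_mul, Matrix.conjTranspose_mul,
      Matrix.conjTranspose_mul, hS, hJh]
    simp only [mul_assoc]
  obtain ⟨U, d, hU, hU', hd⟩ := exists_diag D hD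
  set T : Matrix I I ℂ := J * S * J with hT
  have hTh : Tᴴ = T := by
    rw [hT, Matrix.conjTranspose_mul, Matrix.conjTranspose_mul, hS, hJh]
    simp only [mul_assoc]
  have hTT : T * T = J * (S * S) * J := by
    have := conj_pow (S := S) hJ 2
    rw [pow_two, pow_two] at this
    exact this
  have hDD : D * D = U * diagonal (fun i => ((d i ^ 2 : ℝ) : ℂ)) * Uᴴ := by
    conv_lhs => rw [hd]
    exact diag_sq hU
  -- the two traces
  have hX1 : (S ^ (2 * m) * (D * D)).trace = ((∑ i, cs (S ^ m * U) i * d i ^ 2 : ℝ) : ℂ) := by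
    rw [hDD]; exact trace_diag hS d m
  have hX2 : (T ^ (2 * m) * (D * D)).trace = ((∑ i, cs (T ^ m * U) i * d i ^ 2 : ℝ) : ℂ) := by
    rw [hDD]; exact trace_diag hTh d m
  have hJDJ : J * D * J = -D := by
    rw [hDdef, mul_sub, sub_mul, neg_sub]
    congr 1
    have : J * (J * (S * S) * J) * J = (J * J) * (S * S) * (J * J) := by simp only [mul_assoc]
    rw [this, hJ, one_mul, mul_one]
  have hXX : (T ^ (2 * m) * (D * D)).trace = (S ^ (2 * m) * (D * D)).trace := by
    rw [hT, conj_pow hJ]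
    have h1 : J * S ^ (2 * m) * J * (D * D) = J * (S ^ (2 * m) * (J * (D * D))) := by simp only [mul_assoc]
    rw [h1, Matrix.trace_mul_comm]
    have h2 : S ^ (2 * m) * (J * (D * D)) * J = S ^ (2 * m) * ((J * D * (J * J) * D * J)) := by
      rw [hJ]
      simp only [mul_assoc, one_mul]
    have h3 : J * D * (J * J) * D * J = (J * D * J) * (J * D * J) := by simp only [mul_assoc]
    rw [h2, h3, hJDJ, neg_mul_neg]
  -- the eigenvalues
  have hdi : ∀ i, d i = cs (S * U) i - cs (T * U) i := by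
    intro i
    have h1 : Uᴴ * D * U = diagonal (fun i => (d i : ℂ)) := by
      have h2 : Uᴴ * D * U = (Uᴴ * U) * diagonal (fun i => (d i : ℂ)) * (Uᴴ * U) := by
        conv_lhs => rw [hd]
        simp only [mul_assoc]
      rw [h2, hU, one_mul, mul_one]
    have h2 : Uᴴ * D * U = (S * U)ᴴ * (S * U) - (T * U)ᴴ * (T * U) := by
      rw [Matrix.conjTranspose_mul, Matrix.conjTranspose_mul, hS, hTh, hDdef, ← hTT, mul_sub, sub_mul]
      simp only [mul_assoc]
    have h3 := congrFun (congrFun (h1.symm.trans h2) i) i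
    rw [Matrix.diagonal_apply_eq, Matrix.sub_apply, diag_cs, diag_cs] at h3
    exact_mod_cast h3
  -- the lower bound
  have hlow : ∑ i, |d i| ^ (m + 2) ≤ 2 ^ m * ((S ^ (2 * m) * (D * D)).trace).re := by
    have h1 : ((S ^ (2 * m) * (D * D)).trace).re = ∑ i, cs (S ^ m * U) i * d i ^ 2 := by
      rw [hX1, Complex.ofReal_re]
    have h2 : ((S ^ (2 * m) * (D * D)).trace).re = ∑ i, cs (T ^ m * U) i * d i ^ 2 := by
      rw [← hXX, hX2, Complex.ofReal_re]
    have h3 : 2 * ∑ i, |d i| ^ (m + 2) ≤ 2 ^ m * (∑ i, cs (S ^ m * U) i * d i ^ 2 + ∑ i, cs (T ^ m * U) i * d i ^ 2) := by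
      rw [← Finset.sum_add_distrib, Finset.mul_sum, Finset.mul_sum]
      refine Finset.sum_le_sum fun i _ => ?_
      have p0 := cs_nonneg (S * U) i
      have q0 := cs_nonneg (T * U) i
      have hp := cs_pow hS hU i m
      have hq := cs_pow hTh hU i m
      have habs : |d i| ≤ cs (S * U) i + cs (T * U) i := by
        rw [hdi i]
        exact abs_le.2 ⟨by linarith, by linarith⟩
      have h4 := pow_le_pow_left₀ (abs_nonneg _) habs m
      have h5 := add_pow_le' _ _ p0 q0 m
      have h6 : 2 * |d i| ^ m ≤ 2 ^ m * (cs (S ^ m * U) i + cs (T ^ m * U) i) := by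
        have h7 : (0 : ℝ) ≤ 2 ^ m := by positivity
        calc 2 * |d i| ^ m ≤ 2 * (cs (S * U) i + cs (T * U) i) ^ m := by linarith
          _ ≤ 2 ^ m * (cs (S * U) i ^ m + cs (T * U) i ^ m) := h5
          _ ≤ 2 ^ m * (cs (S ^ m * U) i + cs (T ^ m * U) i) := mul_le_mul_of_nonneg_left (add_le_add hp hq) h7
      have h8 : 0 ≤ d i ^ 2 := sq_nonneg _
      calc 2 * |d i| ^ (m + 2) = (2 * |d i| ^ m) * d i ^ 2 := by rw [pow_add, sq_abs]; ring
        _ ≤ (2 ^ m * (cs (S ^ m * U) i + cs (T ^ m * U) i)) * d i ^ 2 := mul_le_mul_of_nonneg_right h6 h8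
        _ = 2 ^ m * (cs (S ^ m * U) i * d i ^ 2 + cs (T ^ m * U) i * d i ^ 2) := by ring
    rw [← h1, ← h2] at h3
    linarith
  -- the upper bound
  have hup : ((S ^ (2 * m) * (D * D)).trace).re ≤ 2 * (((S ^ (2 * (m + 2))).trace).re -
      ((S * S * (J * S ^ (2 * (m + 2) - 2) * J)).trace).re) := by
    have e2 : 2 * (m + 2) - 2 = 2 * m + 2 := by omega
    rw [e2]
    have hY : (S ^ (2 * m + 2) * (J * (S * S) * J)).trace = (S * S * (J * S ^ (2 * m + 2) * J)).trace := by
      have h1 : S ^ (2 * m + 2) * (J * (S * S) * J) = (S ^ (2 * m + 2) * (J * (S * S))) * J := by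
        simp only [mul_assoc]
      rw [h1, Matrix.trace_mul_comm]
      have h2 : J * (S ^ (2 * m + 2) * (J * (S * S))) = (J * S ^ (2 * m + 2) * J) * (S * S) := by
        simp only [mul_assoc]
      rw [h2, Matrix.trace_mul_comm]
    have hZ : ((S ^ (2 * m) * ((J * (S * S) * J) * (J * (S * S) * J))).trace).re ≤ ((S ^ (2 * (m + 2))).trace).re := by
      have h1 : (J * (S * S) * J) * (J * (S * S) * J) = J * S ^ 4 * J := by
        have : (J * (S * S) * J) * (J * (S * S) * J) = J * (S * S) * (J * J) * (S * S) * J := by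
          simp only [mul_assoc]
        rw [this, hJ, mul_one]
        simp only [mul_assoc, pow_succ, pow_zero, one_mul]
      rw [h1]
      rcases Nat.eq_zero_or_pos m with hm | hm
      · subst hm
        rw [mul_zero, pow_zero, one_mul, mul_assoc, Matrix.trace_mul_comm, mul_assoc, hJ, mul_one]
      · have h2 := word_le σ hs hn S hS (m + 2) (by omega)
          ((true :: List.replicate (2 * m - 1) false) ++ (true :: List.replicate 3 false)) (by
            simp only [List.length_append, List.length_cons, List.length_replicate]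
            omega)
        rw [W_append, W_cons, W_cons, W_replicate_false, W_replicate_false, W_replicate_false, Jb_true,
          ← hJdef] at h2
        have h3 : (J * S * S ^ (2 * m - 1) * (J * S * S ^ 3)).trace = (S ^ (2 * m) * (J * S ^ 4 * J)).trace := by
          have h4 : S ^ (2 * m) * (J * S ^ 4 * J) = (S ^ (2 * m) * (J * S ^ 4)) * J := by simp only [mul_assoc]
          rw [h4, Matrix.trace_mul_comm (S ^ (2 * m) * (J * S ^ 4)) J]
          congr 1
          have h5 : S ^ (2 * m) = S * S ^ (2 * m - 1) := by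
            rw [← pow_succ']
            congr 1
            omega
          have h6 : S ^ 4 = S * S ^ 3 := pow_succ' S 3
          rw [h5, h6]
          simp only [mul_assoc]
        rw [h3, trace_pow_fro hS, Complex.norm_real, Real.norm_of_nonneg (fro_nonneg _)] at h2
        rw [trace_pow_fro hS, Complex.ofReal_re]
        exact (Complex.re_le_norm _).trans h2
    have hexp : (S ^ (2 * m) * (D * D)).trace = (S ^ (2 * (m + 2))).trace -
        2 * (S * S * (J * S ^ (2 * m + 2) * J)).trace +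
        (S ^ (2 * m) * ((J * (S * S) * J) * (J * (S * S) * J))).trace := by
      have h1 : D * D = (S * S) * (S * S) - (S * S) * (J * (S * S) * J) - (J * (S * S) * J) * (S * S) +
          (J * (S * S) * J) * (J * (S * S) * J) := by
        rw [hDdef, sub_mul, mul_sub, mul_sub]
        abel
      rw [h1, mul_add, mul_sub, mul_sub, Matrix.trace_add, Matrix.trace_sub, Matrix.trace_sub]
      have g1 : S ^ (2 * m) * (S * S * (S * S)) = S ^ (2 * (m + 2)) := by
        have : S * S * (S * S) = S ^ 4 := by simp only [mul_assoc, pow_succ, pow_zero, one_mul]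
        rw [this, ← pow_add]
        congr 1
      have g2 : (S ^ (2 * m) * (S * S * (J * (S * S) * J))).trace = (S * S * (J * S ^ (2 * m + 2) * J)).trace := by
        rw [← hY]
        congr 1
        rw [pow_add, pow_two]
        simp only [mul_assoc]
      have g3 : (S ^ (2 * m) * (J * (S * S) * J * (S * S))).trace = (S * S * (J * S ^ (2 * m + 2) * J)).trace := by
        rw [← hY, ← mul_assoc, Matrix.trace_mul_comm]
        congr 1
        have : S ^ (2 * m + 2) = (S * S) * S ^ (2 * m) := by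
          rw [← pow_two, ← pow_add]
          congr 1
          omega
        rw [this]
        simp only [mul_assoc]
      rw [g1, g2, g3]
      ring
    rw [hexp, Complex.add_re, Complex.sub_re, Complex.mul_re]
    have r2 : ((2 : ℂ)).re = 2 := rfl
    have i2 : ((2 : ℂ)).im = 0 := rfl
    rw [r2, i2, zero_mul, sub_zero]
    linarith
  have hfin := jensen hD hU hU' hd hk
  calc ∑ x, (∑ y, ‖D x y‖ ^ 2) ^ (((m + 2 : ℕ) : ℝ) / 2) ≤ ∑ i, |d i| ^ (m + 2) := hfin
    _ ≤ 2 ^ m * ((S ^ (2 * m) * (D * D)).trace).re := hlow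
    _ ≤ 2 ^ m * (2 * (((S ^ (2 * (m + 2))).trace).re -
      ((S * S * (J * S ^ (2 * (m + 2) - 2) * J)).trace).re)) :=
        mul_le_mul_of_nonneg_left hup (by positivity)
    _ = 2 ^ (m + 2 - 1) * (((S ^ (2 * (m + 2))).trace).re -
      ((S * S * (J * S ^ (2 * (m + 2) - 2) * J)).trace).re) := by
        have : m + 2 - 1 = m + 1 := rfl
        rw [this, pow_succ]
        ring

end

end Run7.h431.ZB
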